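import Mathlib
import Pool.Agent.H48.LDP.Defs

/-!
# The twisted sums `∑ Λ(n) n^(-it)`: definitions
-/

set_option autoImplicit false

open Complex

namespace Pool.Agent.H48.LDT

open Pool.Agent.H6 Pool.Agent.H6.Win Pool.Agent.H48.LDP

/-- the coefficients `Λ(n) n^(-it) + ∑_{ρ ∈ Z} m(ρ) n^(ρ-1-it)` -/
noncomputable def aT (t : ℝ) (Z : Finset ℂ) (n : ℕ) : ℂ :=
  ((ArithmeticFunction.vonMangoldt n : ℝ) : ℂ) * (n : ℂ) ^ (-(t * I)) +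
    ∑ ρ ∈ Z, (zord ρ : ℂ) * (n : ℂ) ^ (ρ - 1 - t * I)

/-- the Dirichlet series of `aT t Z`, continued -/
noncomputable def AT (H : ℂ → ℂ) (t : ℝ) (Z : Finset ℂ) (s : ℂ) : ℂ :=
  H (s + t * I) + 1 / (s + t * I - 1) + ∑ ρ ∈ Z, (zord ρ : ℂ) * e0 (s + t * I - ρ + 1)

end Pool.Agent.H48.LDT
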