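import Mathlib
import Pool.Agent.H48.LDT.Defs

/-!
# TPth: the choice of the path, at height `t`

PROOF.  A copy of `H48/LDP/Pth.lean` (`pth`, proved, case `t = 0`) with `|u.im|` replaced by `|u.im - t|` and `s` by
`s + it`: pigeonhole for `σ` against the real parts and for `T'` against the numbers `|Im u - t|`; for `s` on the horizontal
sides `‖s + it - u‖ ≥ |Im s + t - Im u| ≥ ||Im s| - |Im u - t||`.  About 130 lines.
-/

set_option autoImplicit false

open Complex

namespace Pool.Agent.H48.LDT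

open Pool.Agent.H6 Pool.Agent.H6.Win Pool.Agent.H48.LDP

private theorem pigeon (F : Finset ℝ) (N : ℕ) (hF : F.card ≤ N) {a b : ℝ} (hab : a < b) :
    ∃ x : ℝ, a ≤ x ∧ x ≤ b ∧ ∀ y ∈ F, (b - a) / (2 * (N + 1)) ≤ |x - y| := by
  classical
  by_contra hcon
  push Not at hcon
  set δ : ℝ := (b - a) / (2 * (N + 1)) with hδ
  have hN : (0 : ℝ) < N + 1 := by positivity
  have hδ0 : 0 < δ := div_pos (by linarith) (by positivity)
  have hδb : 2 * (N + 1) * δ = b - a := by
    rw [hδ]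
    field_simp
  have h1 : ∀ i : Fin (N + 1), ∃ y ∈ F, |a + (2 * (i : ℕ) + 1) * δ - y| < δ := by
    intro i
    have hi : ((i : ℕ) : ℝ) ≤ N := by
      have := i.2
      exact_mod_cast Nat.lt_succ_iff.1 this
    have hi0 : (0 : ℝ) ≤ ((i : ℕ) : ℝ) := Nat.cast_nonneg _
    refine hcon _ ?_ ?_
    · nlinarith
    · nlinarith
  choose f hf hfd using h1
  have hinj : Function.Injective f := by
    intro i j hij
    by_contra hne
    have h2 := hfd i
    have h3 := hfd j
    rw [hij] at h2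
    rw [abs_lt] at h2 h3
    have h4 : (i : ℕ) ≠ (j : ℕ) := fun h => hne (Fin.ext h)
    rcases lt_or_gt_of_ne h4 with h5 | h5
    · have h6 : ((i : ℕ) : ℝ) + 1 ≤ (j : ℕ) := by exact_mod_cast h5
      nlinarith
    · have h6 : ((j : ℕ) : ℝ) + 1 ≤ (i : ℕ) := by exact_mod_cast h5
      nlinarith
  have h7 : (Finset.univ : Finset (Fin (N + 1))).card ≤ F.card :=
    Finset.card_le_card_of_injOn f (fun i _ => hf i) (fun i _ j _ h => hinj h)
  rw [Finset.card_univ, Fintype.card_fin] at h7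
  omega

theorem pthT {η T t : ℝ} {N : ℕ} (hη : 0 < η) (hη1 : η ≤ 1 / 8) (hT : 1 ≤ T)
    (hN : ∀ S : Finset ℂ, (∀ u ∈ S, zetaPole u = 0 ∧ 1 - 2 * η ≤ u.re ∧ |u.im - t| ≤ T + 2) →
      S.card ≤ N) :
    ∃ σ T' : ℝ, 1 - 3 / 2 * η ≤ σ ∧ σ ≤ 1 - η ∧ T ≤ T' ∧ T' ≤ T + 1 ∧
      ∀ s u : ℂ, OnP σ T' s → zetaPole u = 0 → η / (8 * (N + 1)) ≤ ‖s + t * I - u‖ := by
  classical
  have hfin : {u : ℂ | zetaPole u = 0 ∧ 1 - 2 * η ≤ u.re ∧ |u.im - t| ≤ T + 2}.Finite := by
    by_contra hinf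
    obtain ⟨v, hv, hc⟩ := Set.Infinite.exists_subset_card_eq hinf (N + 1)
    have h1 := hN v (fun u hu => hv hu)
    omega
  have hS : hfin.toFinset.card ≤ N := hN _ (fun u hu => by
    rw [Set.Finite.mem_toFinset] at hu
    exact hu)
  obtain ⟨σ, h1, h2, h3⟩ := pigeon (hfin.toFinset.image Complex.re) N (Finset.card_image_le.trans hS)
    (show 1 - 3 / 2 * η < 1 - η by linarith)
  obtain ⟨T', h4, h5, h6⟩ := pigeon (hfin.toFinset.image fun u => |u.im - t|) N (Finset.card_image_le.trans hS)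
    (show T < T + 1 by linarith)
  have hN1 : (1 : ℝ) ≤ N + 1 := by
    have : (0 : ℝ) ≤ N := Nat.cast_nonneg _
    linarith
  have hN0 : (0 : ℝ) < N + 1 := by linarith
  have hb1 : η / (8 * (N + 1)) ≤ η / 8 := by
    apply div_le_div_of_nonneg_left hη.le (by norm_num)
    linarith
  have hb2 : η / (8 * (N + 1)) ≤ (1 - η - (1 - 3 / 2 * η)) / (2 * (N + 1)) := by
    rw [div_le_div_iff₀ (by positivity) (by positivity)]
    nlinarith
  have hb3 : η / (8 * (N + 1)) ≤ (T + 1 - T) / (2 * (N + 1)) := by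
    rw [div_le_div_iff₀ (by positivity) (by positivity)]
    nlinarith
  refine ⟨σ, T', h1, h2, h4, h5, ?_⟩
  intro s u hs hu
  have hre : σ ≤ s.re := by
    rcases hs with ⟨h, -⟩ | ⟨h, -, -⟩
    · exact h.ge
    · exact h
  have him : |s.im| ≤ T' := by
    rcases hs with ⟨-, h⟩ | ⟨-, -, h⟩
    · exact h
    · exact h.le
  have r1 : (s + t * I - u).re = s.re - u.re := by simp
  have r2 : (s + t * I - u).im = s.im - (u.im - t) := by
    simp
    ring
  have e1' : |s.re - u.re| ≤ ‖s + t * I - u‖ := by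
    have := Complex.abs_re_le_norm (s + t * I - u)
    rwa [r1] at this
  have e1 : s.re - u.re ≤ ‖s + t * I - u‖ := (le_abs_self _).trans e1'
  have e2 : |s.im - (u.im - t)| ≤ ‖s + t * I - u‖ := by
    have := Complex.abs_im_le_norm (s + t * I - u)
    rwa [r2] at this
  by_cases c1 : u.re < 1 - 2 * η
  · linarith
  by_cases c2 : T + 2 < |u.im - t|
  · have h7 : |u.im - t| - |s.im| ≤ |s.im - (u.im - t)| := by
      rw [abs_sub_comm s.im]
      exact abs_sub_abs_le_abs_sub (u.im - t) s.im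
    linarith
  push Not at c1 c2
  have hmem : u ∈ hfin.toFinset := by
    rw [Set.Finite.mem_toFinset]
    exact ⟨hu, c1, c2⟩
  rcases hs with ⟨h7, -⟩ | ⟨-, -, h7⟩
  · have h8 := h3 u.re (Finset.mem_image_of_mem _ hmem)
    rw [← h7] at h8
    exact hb2.trans (h8.trans e1')
  · have h8 := h6 |u.im - t| (Finset.mem_image_of_mem _ hmem)
    rw [← h7] at h8
    exact hb3.trans (h8.trans ((abs_abs_sub_abs_le_abs_sub _ _).trans e2))

end Pool.Agent.H48.LDT
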