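import Mathlib
import Pool.Agent.H48.LDP.Fin2

/-!
# SumD: the density bound in summed form

PROOF.  `expl` (`H48/LDP/Fin2.lean`): `A, B` with `N(σ, T) ≤ A exp(B φ(1-σ))`, `φ(d) = d^(3/2) log T + d VK T`.  Take
`B' = B + 1` and group the zeros of `S` by `j = ⌊φ(1 - Re ρ)⌋₊`.  `φ` is continuous and nondecreasing on `[0, 1/2]`, `φ(0) = 0`.  The zeros
of the group `j`: let `d_j` be their largest `1 - Re ρ` (the group is a finite set), so they are counted by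
`N(1 - d_j, T) ≤ A exp(B φ(d_j)) ≤ A exp(B (j+1))` (finite sum bounded by `NZ`: `finsum_mem_eq_finite_toFinset_sum`; or use
`mainS` of `H48/LD/Main.lean` with the group itself as `S`: then nothing has to be said about `NZ`), and each term is
`≤ exp(-(B+1) j)`.  So the group contributes `≤ A e^B exp(-j)`, and `∑_j exp(-j) ≤ 2` (partial sums of a geometric series).
About 120 lines.
-/

set_option autoImplicit false

open Complex

namespace Pool.Agent.H48.LDT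

open Pool.Agent.H48.LD Pool.Agent.H48.LDP

private theorem sd_geom (I : Finset ℕ) : ∑ j ∈ I, Real.exp (-(j : ℝ)) ≤ 2 := by
  have h1 : ∀ j : ℕ, Real.exp (-(j : ℝ)) ≤ (1 / 2 : ℝ) ^ j := by
    intro j
    have h2 : Real.exp (-(j : ℝ)) = Real.exp (-1) ^ j := by
      rw [← Real.exp_nat_mul]
      congr 1
      ring
    rw [h2]
    refine pow_le_pow_left₀ (Real.exp_pos _).le ?_ j
    rw [Real.exp_neg, one_div]
    have h3 := Real.add_one_le_exp (1 : ℝ)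
    exact inv_anti₀ (by norm_num) (by linarith)
  calc ∑ j ∈ I, Real.exp (-(j : ℝ)) ≤ ∑ j ∈ I, (1 / 2 : ℝ) ^ j := Finset.sum_le_sum fun j _ => h1 j
    _ ≤ ∑' j : ℕ, (1 / 2 : ℝ) ^ j :=
        summable_geometric_two.sum_le_tsum I (fun j _ => by positivity)
    _ = 2 := tsum_geometric_two

theorem sumD : ∃ A B : ℝ, 1 ≤ A ∧ 1 ≤ B ∧ ∀ (T : ℝ) (S : Finset ℂ), 3 ≤ T →
    (∀ ρ ∈ S, riemannZeta ρ = 0 ∧ 1 / 2 ≤ ρ.re ∧ 0 < ρ.im ∧ ρ.im ≤ T) →
    ∑ ρ ∈ S, (analyticOrderNatAt riemannZeta ρ : ℝ) *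
      Real.exp (-(B * ((1 - ρ.re) ^ (3 / 2 : ℝ) * Real.log T + (1 - ρ.re) * VK T))) ≤ A := by
  classical
  obtain ⟨A0, B0, hA0, hB0, hmain⟩ := mainS
  have hE0 := Real.exp_pos B0
  refine ⟨1 + 2 * (A0 * Real.exp B0), B0 + 1, ?_, by linarith, ?_⟩
  · have : 0 ≤ A0 * Real.exp B0 := by positivity
    linarith
  intro T S hT hS
  obtain ⟨hl1, hl2⟩ := loglog3 hT
  have hV : 0 < VK T := VK_pos hT
  have hL0 : 0 < Real.log T := by linarith
  obtain ⟨ph, hph⟩ : ∃ ph : ℝ → ℝ, ∀ d, ph d = d ^ (3 / 2 : ℝ) * Real.log T + d * VK T :=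
    ⟨_, fun _ => rfl⟩
  have hph0 : ∀ d, 0 ≤ d → 0 ≤ ph d := by
    intro d hd
    rw [hph]
    have h1 : 0 ≤ d ^ (3 / 2 : ℝ) := Real.rpow_nonneg hd _
    positivity
  have hre : ∀ ρ ∈ S, ρ.re < 1 := by
    intro ρ hρ
    by_contra h
    exact riemannZeta_ne_zero_of_one_le_re (not_lt.1 h) (hS ρ hρ).1
  obtain ⟨J, hJ⟩ : ∃ J : ℂ → ℕ, ∀ ρ, J ρ = ⌊ph (1 - ρ.re)⌋₊ := ⟨_, fun _ => rfl⟩
  have hfib : ∑ j ∈ S.image J, ∑ ρ ∈ S with J ρ = j, (analyticOrderNatAt riemannZeta ρ : ℝ) *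
      Real.exp (-((B0 + 1) * ph (1 - ρ.re))) =
      ∑ ρ ∈ S, (analyticOrderNatAt riemannZeta ρ : ℝ) *
      Real.exp (-((B0 + 1) * ph (1 - ρ.re))) :=
    Finset.sum_fiberwise_of_maps_to (fun ρ hρ => Finset.mem_image_of_mem J hρ) _
  have hgoal : ∑ ρ ∈ S, (analyticOrderNatAt riemannZeta ρ : ℝ) *
      Real.exp (-((B0 + 1) * ((1 - ρ.re) ^ (3 / 2 : ℝ) * Real.log T + (1 - ρ.re) * VK T))) =
      ∑ ρ ∈ S, (analyticOrderNatAt riemannZeta ρ : ℝ) *
      Real.exp (-((B0 + 1) * ph (1 - ρ.re))) := by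
    refine Finset.sum_congr rfl fun ρ _ => ?_
    rw [hph]
  rw [hgoal, ← hfib]
  have hgrp : ∀ j ∈ S.image J, ∑ ρ ∈ S with J ρ = j, (analyticOrderNatAt riemannZeta ρ : ℝ) *
      Real.exp (-((B0 + 1) * ph (1 - ρ.re))) ≤ A0 * Real.exp B0 * Real.exp (-(j : ℝ)) := by
    intro j hj
    obtain ⟨ρ1, hρ1, hj1⟩ := Finset.mem_image.1 hj
    have hne : (S.filter (fun ρ => J ρ = j)).Nonempty := ⟨ρ1, Finset.mem_filter.2 ⟨hρ1, hj1⟩⟩
    obtain ⟨ρ0, hρ0, hmin⟩ := Finset.exists_min_image (S.filter (fun ρ => J ρ = j)) (fun ρ => ρ.re) hne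
    obtain ⟨hρ0S, hρ0j⟩ := Finset.mem_filter.1 hρ0
    have hr0 := hre ρ0 hρ0S
    have h1 := hmain ρ0.re T (S.filter (fun ρ => J ρ = j)) (hS ρ0 hρ0S).2.1 hr0.le hT
      (fun ρ hρ => by
        obtain ⟨hρS, -⟩ := Finset.mem_filter.1 hρ
        obtain ⟨g1, g2, g3, g4⟩ := hS ρ hρS
        exact ⟨g1, hmin ρ hρ, g3, g4⟩)
    have h2 : ph (1 - ρ0.re) ≤ j + 1 := by
      have h3 := Nat.lt_floor_add_one (ph (1 - ρ0.re))
      rw [← hJ, hρ0j] at h3
      exact h3.le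
    have h3 : ∑ ρ ∈ S with J ρ = j, (analyticOrderNatAt riemannZeta ρ : ℝ) ≤
        A0 * Real.exp (B0 * (j + 1)) := by
      refine h1.trans (mul_le_mul_of_nonneg_left (Real.exp_le_exp.2 ?_) hA0.le)
      have h4 := hph (1 - ρ0.re)
      rw [VK] at h4
      rw [← h4]
      exact mul_le_mul_of_nonneg_left h2 hB0.le
    have h4 : ∀ ρ ∈ S.filter (fun ρ => J ρ = j), (analyticOrderNatAt riemannZeta ρ : ℝ) *
        Real.exp (-((B0 + 1) * ph (1 - ρ.re))) ≤ (analyticOrderNatAt riemannZeta ρ : ℝ) *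
        Real.exp (-((B0 + 1) * j)) := by
      intro ρ hρ
      obtain ⟨hρS, hρj⟩ := Finset.mem_filter.1 hρ
      refine mul_le_mul_of_nonneg_left (Real.exp_le_exp.2 ?_) (Nat.cast_nonneg _)
      have h5 : (j : ℝ) ≤ ph (1 - ρ.re) := by
        have h6 := Nat.floor_le (hph0 (1 - ρ.re) (by linarith [hre ρ hρS]))
        rw [← hJ, hρj] at h6
        exact h6
      have h6 := mul_le_mul_of_nonneg_left h5 (by linarith : 0 ≤ B0 + 1)
      linarith
    refine (Finset.sum_le_sum h4).trans ?_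
    rw [← Finset.sum_mul]
    have h5 := mul_le_mul_of_nonneg_right h3 (Real.exp_pos (-((B0 + 1) * j))).le
    refine h5.trans (le_of_eq ?_)
    rw [mul_assoc, mul_assoc, ← Real.exp_add, ← Real.exp_add]
    congr 2
    ring
  refine (Finset.sum_le_sum hgrp).trans ?_
  rw [← Finset.mul_sum]
  have h7 := mul_le_mul_of_nonneg_left (sd_geom (S.image J)) (by positivity : 0 ≤ A0 * Real.exp B0)
  linarith

end Pool.Agent.H48.LDT
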