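import Mathlib
import Pool.Agent.H48.LDT.SumD
import Pool.Agent.H52.ZR.Low

/-!
# TSum: the contribution of the zeros

PROOF.  Every `ρ ∈ Z` has `t/2 ≤ Im ρ ≤ 2t`, `d = 1 - Re ρ ≤ 2η ≤ 1/2`.  (a) `x^(-d/2) ≤ exp(-B φ(d))`, with `A, B` of `sumD` and
`φ(d) = d^(3/2) log (2t) + d VK (2t)`: `d^(1/2) log (2t) ≤ √(2η) 2 log t ≤ (2/C) log x`, `VK (2t) ≤ VK (t²) ≤ 4 VK t ≤ (4/C) log x`
(`VK_mono, VK_sq` in `H48/LDP/Fin2.lean`), so `B φ(d) ≤ 6 B/C d log x ≤ d (log x)/2` for `C ≥ 12 B`.  (b)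
`x^(-d/2) ≤ exp(-c' log x/VK t)`: `vk_all` (`H52/ZR/Low.lean`): `c2 ≤ d · vklam (2t)` (`vklam_mono`), and
`vklam (2t) ≤ C' VK t` for `t ≥ e^e` (`log (2t+3) ≤ 3 log t`, `1 + loglog (2t+3) ≤ 4 loglog t`).  So
`∑ m x^(-d) ≤ exp(-c' log x/VK t) ∑ m exp(-B φ(d)) ≤ A exp(-c' log x/VK t)` (`sumD` with `T = 2t`).  About 150 lines.
-/

set_option autoImplicit false

open Complex

namespace Pool.Agent.H48.LDT

open Pool.Agent.H48.LD Pool.Agent.H48.LDP Pool.Agent.H52.ZR

private theorem vklam_le {t : ℝ} (ht : 32 ≤ t) : vklam (2 * t) ≤ 12 * VK t := by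
  have hl2 := Real.log_two_gt_d9
  have h32 : Real.log 32 ≤ Real.log t := Real.log_le_log (by norm_num) ht
  have h32' : Real.log 32 = 5 * Real.log 2 := by
    rw [show (32 : ℝ) = 2 ^ 5 by norm_num, Real.log_pow]
    norm_num
  have hL : 3 ≤ Real.log t := by linarith
  have hLL : 1 ≤ Real.log (Real.log t) := by
    rw [Real.le_log_iff_exp_le (by linarith)]
    have := Real.exp_one_lt_d9
    linarith
  have h1 : Real.log (2 * t + 3) ≤ 3 * Real.log t := by
    have h := Real.log_le_log (by linarith : 0 < 2 * t + 3) (by nlinarith [sq_nonneg t] : 2 * t + 3 ≤ t ^ 3)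
    rw [Real.log_pow] at h
    push_cast at h
    exact h
  have h0 : 1 ≤ Real.log (2 * t + 3) := by
    rw [Real.le_log_iff_exp_le (by linarith)]
    have := Real.exp_one_lt_d9
    linarith
  have h3 : Real.log 3 ≤ 2 := by
    have := Real.log_le_sub_one_of_pos (by norm_num : (0 : ℝ) < 3)
    linarith
  have h2 : 1 + Real.log (Real.log (2 * t + 3)) ≤ 4 * Real.log (Real.log t) := by
    have h := Real.log_le_log (by linarith : 0 < Real.log (2 * t + 3)) h1
    rw [Real.log_mul (by norm_num) (by linarith)] at h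
    linarith
  have h4 : 0 ≤ Real.log (Real.log (2 * t + 3)) := Real.log_nonneg h0
  unfold vklam VK
  have e1 : (Real.log (2 * t + 3)) ^ (2 / 3 : ℝ) ≤ 3 * Real.log t ^ (2 / 3 : ℝ) := by
    calc (Real.log (2 * t + 3)) ^ (2 / 3 : ℝ) ≤ (3 * Real.log t) ^ (2 / 3 : ℝ) := by
          apply Real.rpow_le_rpow (by linarith) h1 (by norm_num)
      _ = 3 ^ (2 / 3 : ℝ) * Real.log t ^ (2 / 3 : ℝ) := by
          rw [Real.mul_rpow (by norm_num) (by linarith)]
      _ ≤ 3 ^ (1 : ℝ) * Real.log t ^ (2 / 3 : ℝ) := by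
          apply mul_le_mul_of_nonneg_right _ (Real.rpow_nonneg (by linarith) _)
          exact Real.rpow_le_rpow_of_exponent_le (by norm_num) (by norm_num)
      _ = _ := by rw [Real.rpow_one]
  have e2 : (1 + Real.log (Real.log (2 * t + 3))) ^ (1 / 3 : ℝ) ≤
      4 * Real.log (Real.log t) ^ (1 / 3 : ℝ) := by
    calc (1 + Real.log (Real.log (2 * t + 3))) ^ (1 / 3 : ℝ)
        ≤ (4 * Real.log (Real.log t)) ^ (1 / 3 : ℝ) := by
          apply Real.rpow_le_rpow (by linarith) h2 (by norm_num)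
      _ = 4 ^ (1 / 3 : ℝ) * Real.log (Real.log t) ^ (1 / 3 : ℝ) := by
          rw [Real.mul_rpow (by norm_num) (by linarith)]
      _ ≤ 4 ^ (1 : ℝ) * Real.log (Real.log t) ^ (1 / 3 : ℝ) := by
          apply mul_le_mul_of_nonneg_right _ (Real.rpow_nonneg (by linarith) _)
          exact Real.rpow_le_rpow_of_exponent_le (by norm_num) (by norm_num)
      _ = _ := by rw [Real.rpow_one]
  calc _ ≤ (3 * Real.log t ^ (2 / 3 : ℝ)) * (4 * Real.log (Real.log t) ^ (1 / 3 : ℝ)) := by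
        apply mul_le_mul e1 e2 (Real.rpow_nonneg (by linarith) _)
        exact mul_nonneg (by norm_num) (Real.rpow_nonneg (by linarith) _)
    _ = _ := by ring

theorem sumZ : ∃ C c : ℝ, 1 ≤ C ∧ 0 < c ∧ ∀ (t x η : ℝ) (Z : Finset ℂ), C ≤ t → 1 ≤ x →
    C * VK t ≤ Real.log x → 0 < η → η ≤ 1 / 4 → C * (√(2 * η) * Real.log t) ≤ Real.log x →
    (∀ ρ ∈ Z, riemannZeta ρ = 0 ∧ 1 - 2 * η ≤ ρ.re ∧ |ρ.im - t| ≤ t / 2) →
    ∑ ρ ∈ Z, (analyticOrderNatAt riemannZeta ρ : ℝ) * x ^ (ρ.re - 1) ≤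
      C * Real.exp (-(c * (Real.log x / VK t))) := by
  obtain ⟨A, B, hA, hB, hD⟩ := sumD
  obtain ⟨c2, hc2, hvk⟩ := vk_all
  refine ⟨A + 12 * B + 32, c2 / 24, by linarith, by positivity, ?_⟩
  intro t x η Z ht hx hVx hη hη4 hηx hZ
  have ht32 : 32 ≤ t := by linarith
  have hx0 : 0 < x := by linarith
  have hV : 0 < VK t := VK_pos (by linarith)
  have hlx : 0 ≤ Real.log x := Real.log_nonneg hx
  have hlt : 1 ≤ Real.log t := (loglog3 (by linarith : 3 ≤ t)).1
  have hsq : VK (2 * t) ≤ 4 * VK t :=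
    (VK_mono (by linarith) (by nlinarith : 2 * t ≤ t ^ 2)).trans (VK_sq (by linarith))
  have hl2t : Real.log (2 * t) ≤ 2 * Real.log t := by
    have h := Real.log_le_log (by linarith : 0 < 2 * t) (by nlinarith : 2 * t ≤ t ^ 2)
    rw [Real.log_pow] at h
    push_cast at h
    exact h
  have hl2t0 : 0 ≤ Real.log (2 * t) := Real.log_nonneg (by linarith)
  have hV2 : 0 < VK (2 * t) := VK_pos (by linarith)
  have hBV : B * VK (2 * t) ≤ Real.log x / 3 := by
    have h1 : 12 * B * VK t ≤ (A + 12 * B + 32) * VK t := by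
      apply mul_le_mul_of_nonneg_right _ hV.le
      linarith
    have h2 : B * VK (2 * t) ≤ B * (4 * VK t) := mul_le_mul_of_nonneg_left hsq (by linarith)
    linarith
  have hBS : B * (√(2 * η) * Real.log (2 * t)) ≤ Real.log x / 6 := by
    have hs := Real.sqrt_nonneg (2 * η)
    have h0 : 0 ≤ √(2 * η) * Real.log t := mul_nonneg hs (by linarith)
    have h1 : 12 * B * (√(2 * η) * Real.log t) ≤ (A + 12 * B + 32) * (√(2 * η) * Real.log t) := by
      apply mul_le_mul_of_nonneg_right _ h0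
      linarith
    have h2 : √(2 * η) * Real.log (2 * t) ≤ √(2 * η) * (2 * Real.log t) :=
      mul_le_mul_of_nonneg_left hl2t hs
    have h3 : B * (√(2 * η) * Real.log (2 * t)) ≤ B * (√(2 * η) * (2 * Real.log t)) :=
      mul_le_mul_of_nonneg_left h2 (by linarith)
    nlinarith
  have hkey : ∀ ρ ∈ Z, x ^ (ρ.re - 1) ≤
      Real.exp (-(B * ((1 - ρ.re) ^ (3 / 2 : ℝ) * Real.log (2 * t) + (1 - ρ.re) * VK (2 * t)))) *
        Real.exp (-(c2 / 24 * (Real.log x / VK t))) := by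
    intro ρ hρ
    obtain ⟨h0, hre, him⟩ := hZ ρ hρ
    have hre1 : ρ.re < 1 := by
      by_contra hcon
      exact riemannZeta_ne_zero_of_one_le_re (by linarith : 1 ≤ ρ.re) h0
    have hd : 0 < 1 - ρ.re := by linarith
    have him' := abs_le.mp him
    have him1 : |ρ.im| ≤ 2 * t := by
      rw [abs_le]
      constructor <;> linarith
    rw [Real.rpow_def_of_pos hx0, ← Real.exp_add]
    apply Real.exp_le_exp.mpr
    have ha : B * ((1 - ρ.re) ^ (3 / 2 : ℝ) * Real.log (2 * t) + (1 - ρ.re) * VK (2 * t)) ≤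
        (1 - ρ.re) * Real.log x / 2 := by
      have hp : (1 - ρ.re) ^ (3 / 2 : ℝ) = (1 - ρ.re) * √(1 - ρ.re) := by
        rw [show (3 / 2 : ℝ) = 1 + 1 / 2 by norm_num, Real.rpow_add hd, Real.rpow_one,
          ← Real.sqrt_eq_rpow]
      rw [hp]
      have hs : √(1 - ρ.re) ≤ √(2 * η) := Real.sqrt_le_sqrt (by linarith)
      have h1 : B * (√(1 - ρ.re) * Real.log (2 * t)) ≤ B * (√(2 * η) * Real.log (2 * t)) := by
        apply mul_le_mul_of_nonneg_left _ (by linarith)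
        exact mul_le_mul_of_nonneg_right hs hl2t0
      calc B * ((1 - ρ.re) * √(1 - ρ.re) * Real.log (2 * t) + (1 - ρ.re) * VK (2 * t))
          = (1 - ρ.re) * (B * (√(1 - ρ.re) * Real.log (2 * t)) + B * VK (2 * t)) := by ring
        _ ≤ (1 - ρ.re) * (Real.log x / 6 + Real.log x / 3) := by
            apply mul_le_mul_of_nonneg_left _ hd.le
            linarith
        _ = (1 - ρ.re) * Real.log x / 2 := by ring
    have hb : c2 / 24 * (Real.log x / VK t) ≤ (1 - ρ.re) * Real.log x / 2 := by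
      have h1 := hvk ρ h0 (by linarith)
      have h2 := vklam_mono (abs_nonneg ρ.im) him1
      have h3 := vklam_le ht32
      have h4 : c2 ≤ (1 - ρ.re) * (12 * VK t) :=
        h1.trans (mul_le_mul_of_nonneg_left (h2.trans h3) hd.le)
      have h5 : c2 / 24 * (Real.log x / VK t) = (c2 * Real.log x / 24) / VK t := by ring
      rw [h5, div_le_iff₀ hV]
      have h6 : c2 * Real.log x ≤ (1 - ρ.re) * (12 * VK t) * Real.log x :=
        mul_le_mul_of_nonneg_right h4 hlx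
      nlinarith
    nlinarith
  have hS := hD (2 * t) Z (by linarith) (by
    intro ρ hρ
    obtain ⟨h0, hre, him⟩ := hZ ρ hρ
    have him' := abs_le.mp him
    exact ⟨h0, by linarith, by linarith, by linarith⟩)
  calc ∑ ρ ∈ Z, (analyticOrderNatAt riemannZeta ρ : ℝ) * x ^ (ρ.re - 1)
      ≤ ∑ ρ ∈ Z, ((analyticOrderNatAt riemannZeta ρ : ℝ) *
        Real.exp (-(B * ((1 - ρ.re) ^ (3 / 2 : ℝ) * Real.log (2 * t) + (1 - ρ.re) * VK (2 * t))))) *
          Real.exp (-(c2 / 24 * (Real.log x / VK t))) := by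
        apply Finset.sum_le_sum
        intro ρ hρ
        rw [mul_assoc]
        exact mul_le_mul_of_nonneg_left (hkey ρ hρ) (Nat.cast_nonneg _)
    _ = (∑ ρ ∈ Z, (analyticOrderNatAt riemannZeta ρ : ℝ) *
        Real.exp (-(B * ((1 - ρ.re) ^ (3 / 2 : ℝ) * Real.log (2 * t) + (1 - ρ.re) * VK (2 * t))))) *
          Real.exp (-(c2 / 24 * (Real.log x / VK t))) := by rw [Finset.sum_mul]
    _ ≤ A * Real.exp (-(c2 / 24 * (Real.log x / VK t))) :=
        mul_le_mul_of_nonneg_right hS (Real.exp_pos _).le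
    _ ≤ _ := by
        apply mul_le_mul_of_nonneg_right _ (Real.exp_pos _).le
        linarith

end Pool.Agent.H48.LDT
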