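import Mathlib
import Pool.Agent.H48.LDT.TPsa
import Pool.Agent.H48.LDT.TSum
import Pool.Agent.H76.RP.ZcF

/-!
# TPar: the choice of the parameters, `log x` between `C0 VK t` and `(log t)^(3/2)`

PROOF.  `L = log t`, `l = loglog t`, `V = VK t = L^(2/3) l^(1/3)`, `X = log x`, `C0 V ≤ X ≤ L^(3/2)`, `t ≥ C0` large.
`m = X/(100 V)`, `T = exp(2m) L^20`, `η = (6m + 60 l)/X = (6/100)/V + 60 l/X ≤ (1 + 60 l/C0)/V`.
Conditions of `psaT`: `2m + 20 l ≤ X/4` (`T ≤ x^(1/4)`); `2m ≤ L^(3/2)/(50 V) ≤ L^(5/6)`, so `2 (T + 3) ≤ t`;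
`log (2t+4) ≤ 2L ≤ T`; `η ≤ 1/8`.
Count: `mainS` (`H48/LD/Main.lean`) with `σ = 1 - 2η`, height `2t` (the zeros `|Im u - t| ≤ T + 2 ≤ t/2` have `0 < Im u ≤ 2t`):
`mul S ≤ A exp(B ((2η)^(3/2) 2L + 2η 4V))` (`log (2t) ≤ 2L`, `VK (2t) ≤ VK (t²) ≤ 4V`); `8ηV ≤ 8 + 480 l/C0`,
`(2η)^(3/2) 2L ≤ 2 (2 + 120 l/C0)^(3/2)/l^(1/2)` (`V^(3/2) = L l^(1/2)`) `≤ 16 + 8 (120/C0)^(3/2) l`
(`(a+b)^(3/2) ≤ 2 a^(3/2) + 2 b^(3/2)`, `l ≥ 1`).  With `C0` large in terms of `B` the exponent is `≤ 24 B + l`, so `N ≤ A e^(24B) L`.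
Error of `psaT`: `C (1+N)² (x/η) (X/√T + x^(-η) T²)`, `(1+N)² ≤ C L²`, `1/η ≤ X ≤ L²`, `X/√T ≤ L² exp(-m) L^(-10)`,
`x^(-η) T² = exp(-6m - 60 l + 4m + 40 l) ≤ exp(-2m) L^(-20)`: total `≤ C x exp(-m)`.
Zeros: `‖x^(ρ-it)/(ρ-it)‖ = x^(Re ρ)/‖ρ - it‖ ≤ 2 x x^(Re ρ - 1)` (`‖ρ - it‖ ≥ Re ρ ≥ 1/2`), `sumZ` (`TSum.lean`), whose condition is
`√(2η) L ≤ (2 + 120 l/C0)^(1/2) V^(-1/2) L ≤ (2 + 12/√C0 ..) V ≤ X/C` (`L V^(-1/2) = L^(2/3) l^(-1/6) ≤ V l^(-1/2)`).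
(`zord u = analyticOrderNatAt riemannZeta u`: `zord_eq`; see the proofs in `H76/RP/ZcF.lean` and `H48/LDP/Psb.lean`.)
About 300 lines.
-/

set_option autoImplicit false

open Complex

namespace Pool.Agent.H48.LDT

open Pool.Agent.H48.LD Pool.Agent.H48.LDP

open Pool.Agent.H6 Pool.Agent.H6.Win

private theorem tpar_ev : ∃ t0 : ℝ, 3 ≤ t0 ∧ ∀ t : ℝ, t0 ≤ t →
    80 ≤ Real.log t ∧ 1 ≤ Real.log (Real.log t) ∧ 80 * Real.log (Real.log t) ≤ Real.log t := by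
  have h1 := (Real.isLittleO_log_id_atTop.bound (c := 1 / 80) (by norm_num))
  have h2 := Real.tendsto_log_atTop.eventually (h1.and (Filter.eventually_ge_atTop 80))
  obtain ⟨t0, ht0⟩ := Filter.eventually_atTop.1 h2
  refine ⟨max t0 3, le_max_right _ _, fun t ht => ?_⟩
  obtain ⟨h3, h4⟩ := ht0 t ((le_max_left _ _).trans ht)
  have h5 : 1 ≤ Real.log (Real.log t) := by
    rw [Real.le_log_iff_exp_le (by linarith)]
    have := Real.exp_one_lt_three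
    linarith
  refine ⟨h4, h5, ?_⟩
  rw [Real.norm_of_nonneg (by linarith), id_eq, Real.norm_of_nonneg (by linarith)] at h3
  linarith

/-- The facts about `V = L^(2/3) l^(1/3)`. -/
private theorem tpar_V {L l V : ℝ} (hl : 1 ≤ l) (hlL : l ≤ L)
    (hV : V = L ^ (2 / 3 : ℝ) * l ^ (1 / 3 : ℝ)) :
    1 ≤ V ∧ l ≤ V ∧ V ^ 3 = L ^ 2 * l ∧ L ^ (3 / 2 : ℝ) ≤ V * L ∧ L ^ (3 / 2 : ℝ) ≤ L ^ 2 := by
  have hL1 : 1 ≤ L := hl.trans hlL
  have hL0 : 0 < L := by linarith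
  have hl0 : 0 < l := by linarith
  have h13 : 1 ≤ l ^ (1 / 3 : ℝ) := Real.one_le_rpow hl (by norm_num)
  have h23 : l ^ (2 / 3 : ℝ) ≤ L ^ (2 / 3 : ℝ) := Real.rpow_le_rpow hl0.le hlL (by norm_num)
  have h4 : l ^ (2 / 3 : ℝ) * l ^ (1 / 3 : ℝ) = l := by
    rw [← Real.rpow_add hl0]
    norm_num
  have hlV : l ≤ V := by
    rw [hV]
    calc l = l ^ (2 / 3 : ℝ) * l ^ (1 / 3 : ℝ) := h4.symm
      _ ≤ _ := mul_le_mul_of_nonneg_right h23 (by linarith)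
  refine ⟨hl.trans hlV, hlV, ?_, ?_, ?_⟩
  · rw [hV, mul_pow]
    congr 1
    · rw [← Real.rpow_natCast, ← Real.rpow_mul hL0.le, ← Real.rpow_natCast]
      norm_num
    · rw [← Real.rpow_natCast, ← Real.rpow_mul hl0.le]
      norm_num
  · have h5 : L ^ (3 / 2 : ℝ) = L ^ (2 / 3 : ℝ) * L ^ (5 / 6 : ℝ) := by
      rw [← Real.rpow_add hL0]
      norm_num
    have h6 : L ^ (5 / 6 : ℝ) ≤ L ^ (1 : ℝ) := Real.rpow_le_rpow_of_exponent_le hL1 (by norm_num)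
    rw [Real.rpow_one] at h6
    have h7 : 0 < L ^ (2 / 3 : ℝ) := Real.rpow_pos_of_pos hL0 _
    have h8 : L ^ (2 / 3 : ℝ) ≤ V := by
      rw [hV]
      exact le_mul_of_one_le_right h7.le h13
    rw [h5]
    exact mul_le_mul h8 h6 (Real.rpow_nonneg hL0.le _) (h7.le.trans h8)
  · have h6 : L ^ (3 / 2 : ℝ) ≤ L ^ (2 : ℝ) := Real.rpow_le_rpow_of_exponent_le hL1 (by norm_num)
    rwa [show (2 : ℝ) = ((2 : ℕ) : ℝ) by norm_num, Real.rpow_natCast] at h6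

/-- The exponent of the count: `s = 2η`, `s V ≤ 1 + δ l`, `δ ≤ 1`. -/
private theorem tpar_s {L l V s δ : ℝ} (hl : 1 ≤ l) (hL : 0 < L) (hV : 1 ≤ V)
    (hV3 : V ^ 3 = L ^ 2 * l) (hs : 0 < s) (hδ : 0 ≤ δ) (hδ1 : δ ≤ 1) (hsV : s * V ≤ 1 + δ * l) :
    √s * L ≤ 2 * V ∧ s ^ (3 / 2 : ℝ) * L ≤ 2 * (1 + δ * l) := by
  have hl0 : 0 < l := by linarith
  have hV0 : 0 < V := by linarith
  have h1 : √s * L ≤ 2 * V := by
    refine abs_le_of_sq_le_sq' ?_ (by linarith) |>.2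
    rw [mul_pow, Real.sq_sqrt hs.le]
    -- s L^2 l = s V^3 ≤ (1 + δ l) V^2 ≤ 2 l V^2
    have h2 : s * L ^ 2 * l ≤ 4 * V ^ 2 * l := by
      have h3 : s * L ^ 2 * l = s * V * V ^ 2 := by
        have : s * L ^ 2 * l = s * (L ^ 2 * l) := by ring
        rw [this, ← hV3]
        ring
      have h4 : s * V * V ^ 2 ≤ (1 + δ * l) * V ^ 2 :=
        mul_le_mul_of_nonneg_right hsV (by positivity)
      have h5 : 1 + δ * l ≤ 2 * l := by nlinarith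
      have h6 : (1 + δ * l) * V ^ 2 ≤ 2 * l * V ^ 2 := mul_le_mul_of_nonneg_right h5 (by positivity)
      have h7 : 0 ≤ l * V ^ 2 := by positivity
      rw [h3]
      linarith
    have h8 := le_of_mul_le_mul_right h2 hl0
    calc s * L ^ 2 ≤ 4 * V ^ 2 := h8
      _ = (2 * V) ^ 2 := by ring
  refine ⟨h1, ?_⟩
  have h2 : s ^ (3 / 2 : ℝ) = s * √s := by
    rw [Real.sqrt_eq_rpow]
    conv_rhs => rw [← Real.rpow_one s]
    rw [← Real.rpow_mul hs.le, ← Real.rpow_add hs]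
    norm_num
  rw [h2, mul_assoc]
  have h3 := mul_le_mul_of_nonneg_left h1 hs.le
  linarith

/-- The count of the zeros. -/
private theorem tpar_count {A B t l s D E : ℝ} {L V : ℝ} (hA : 0 < A) (hB : 0 < B) (ht : 4 ≤ t)
    (hL : Real.log t = L) (hl : Real.log L = l) (hV : VK t = V) (hL0 : 0 < L)
    (hs0 : 0 < s) (hs : s ≤ 1 / 2) (hD : s ^ (3 / 2 : ℝ) * L ≤ 2 * D) (hE : s * V ≤ D)
    (hDB : 8 * B * D ≤ 8 * B + l) (hE' : E + 2 ≤ t / 2)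
    (hmain : ∀ (σ T : ℝ) (S : Finset ℂ), 1 / 2 ≤ σ → σ ≤ 1 → 3 ≤ T →
      (∀ ρ ∈ S, riemannZeta ρ = 0 ∧ σ ≤ ρ.re ∧ 0 < ρ.im ∧ ρ.im ≤ T) →
      ∑ ρ ∈ S, (analyticOrderNatAt riemannZeta ρ : ℝ) ≤
        A * Real.exp (B * ((1 - σ) ^ (3 / 2 : ℝ) * Real.log T +
          (1 - σ) * (Real.log T ^ (2 / 3 : ℝ) * Real.log (Real.log T) ^ (1 / 3 : ℝ)))))
    (S : Finset ℂ) (hS : ∀ u ∈ S, zetaPole u = 0 ∧ 1 - s ≤ u.re ∧ |u.im - t| ≤ E + 2) :
    mul S ≤ ⌊A * Real.exp (8 * B) * L⌋₊ := by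
  have hne : ∀ u ∈ S, u ≠ 1 := by
    rintro u hu rfl
    have h1 := (hS _ hu).1
    unfold zetaPole at h1
    rw [Function.update_self] at h1
    exact one_ne_zero h1
  rw [Nat.le_floor_iff (by positivity)]
  have h1 : (mul S : ℝ) = ∑ u ∈ S, (analyticOrderNatAt riemannZeta u : ℝ) := by
    unfold mul
    push_cast
    refine Finset.sum_congr rfl fun u hu => ?_
    rw [Pool.Agent.H76.CR.zord_eq (hne u hu)]
  rw [h1]
  refine (hmain (1 - s) (2 * t) S (by linarith) (by linarith) (by linarith) fun u hu => ?_).trans ?_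
  · obtain ⟨h2, h3, h4⟩ := hS u hu
    have h5 := abs_le.1 h4
    exact ⟨(Pool.Agent.H76.CR.zetaPole_eq_zero_iff (hne u hu)).1 h2, h3, by linarith [h5.1],
      by linarith [h5.2]⟩
  · have h2 : 1 - (1 - s) = s := by ring
    rw [h2]
    have h3 : Real.log (2 * t) ≤ 2 * L := by
      rw [← hL, two_mul (Real.log t), ← Real.log_mul (by linarith) (by linarith)]
      exact Real.log_le_log (by linarith) (by nlinarith)
    have h4 : VK (2 * t) ≤ 4 * V := by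
      rw [← hV]
      exact (VK_mono (by linarith) (by nlinarith : 2 * t ≤ t ^ 2)).trans (VK_sq (by linarith))
    have h5 : s ^ (3 / 2 : ℝ) * Real.log (2 * t) ≤ 4 * D := by
      have h6 := mul_le_mul_of_nonneg_left h3 (Real.rpow_nonneg hs0.le (3 / 2 : ℝ))
      linarith
    have h6 : s * VK (2 * t) ≤ 4 * D := by
      have h7 := mul_le_mul_of_nonneg_left h4 hs0.le
      linarith
    have h7 : B * (s ^ (3 / 2 : ℝ) * Real.log (2 * t) +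
        s * (Real.log (2 * t) ^ (2 / 3 : ℝ) * Real.log (Real.log (2 * t)) ^ (1 / 3 : ℝ))) ≤
        8 * B + l := by
      have h8 : s * (Real.log (2 * t) ^ (2 / 3 : ℝ) * Real.log (Real.log (2 * t)) ^ (1 / 3 : ℝ)) =
          s * VK (2 * t) := rfl
      rw [h8]
      have h9 := mul_le_mul_of_nonneg_left (add_le_add h5 h6) hB.le
      linarith
    have h8 : Real.exp (8 * B + l) = Real.exp (8 * B) * L := by
      rw [Real.exp_add, ← hl, Real.exp_log hL0]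
    calc _ ≤ A * Real.exp (8 * B + l) := mul_le_mul_of_nonneg_left (Real.exp_le_exp.2 h7) hA.le
      _ = A * Real.exp (8 * B) * L := by rw [h8]; ring

/-- One zero. -/
private theorem tpar_zero {t x : ℝ} (hx : 0 < x) {ρ : ℂ} (hne : ρ ≠ 1) (hre : 1 / 2 ≤ ρ.re) :
    ‖(zord ρ : ℂ) * ((x : ℂ) ^ (ρ - t * I) / (ρ - t * I))‖ ≤
      2 * x * ((analyticOrderNatAt riemannZeta ρ : ℝ) * x ^ (ρ.re - 1)) := by
  have h1 : (ρ - t * I).re = ρ.re := by simp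
  have h2 : 1 / 2 ≤ ‖ρ - t * I‖ := by
    have h3 := Complex.abs_re_le_norm (ρ - t * I)
    rw [h1, abs_of_pos (by linarith)] at h3
    linarith
  rw [norm_mul, norm_div, Complex.norm_natCast, Complex.norm_cpow_eq_rpow_re_of_pos hx, h1,
    Pool.Agent.H76.CR.zord_eq hne]
  have h3 : x ^ ρ.re = x * x ^ (ρ.re - 1) := by
    rw [Real.rpow_sub_one hx.ne']
    field_simp
  have h4 : x ^ ρ.re / ‖ρ - t * I‖ ≤ 2 * (x * x ^ (ρ.re - 1)) := by
    rw [← h3, div_le_iff₀ (by linarith)]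
    have h5 : 0 ≤ x ^ ρ.re := Real.rpow_nonneg hx.le _
    have h6 := mul_le_mul_of_nonneg_left h2 h5
    linarith
  have h5 := mul_le_mul_of_nonneg_left h4
    (Nat.cast_nonneg (α := ℝ) (analyticOrderNatAt riemannZeta ρ))
  linarith

/-- The error. -/
private theorem tpar_err {Cp C2 L l X x T η m : ℝ} {N : ℕ} (hCp : 1 ≤ Cp) (hC2 : 0 < C2) (hl1 : 1 ≤ l)
    (hm0 : 0 < m) (hη0 : 0 < η) (hx0 : 0 < x) (hX0 : 0 < X) (hL : L = Real.exp l)
    (hN : 1 + (N : ℝ) ≤ C2 * L) (hX : X ≤ L ^ 2) (hxX : x = Real.exp X)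
    (hηX : η * X = 6 * m + 60 * l) (hT : T = Real.exp (2 * m + 20 * l)) :
    Cp * (1 + (N : ℝ)) ^ 2 * (x / η) * (X / √T + x ^ (-η) * T ^ 2) ≤
      2 * Cp * C2 ^ 2 * x * Real.exp (-m) := by
  have hLe : ∀ k : ℕ, L ^ k = Real.exp (k * l) := by
    intro k
    rw [Real.exp_nat_mul, hL]
  have e1 : x / η ≤ x * L ^ 2 := by
    rw [div_le_iff₀ hη0]
    have h1 : 1 ≤ η * L ^ 2 := by
      have h2 : η * X ≤ η * L ^ 2 := mul_le_mul_of_nonneg_left hX hη0.le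
      linarith
    have h3 := mul_le_mul_of_nonneg_left h1 hx0.le
    linarith
  have e2 : X / √T + x ^ (-η) * T ^ 2 ≤ 2 * Real.exp (-m) * Real.exp (-(4 * l)) := by
    have h1 : √T = Real.exp (m + 10 * l) := by
      rw [hT, ← Real.exp_half]
      congr 1
      ring
    have h2 : X / √T ≤ Real.exp (-m) * Real.exp (-(4 * l)) := by
      rw [h1, div_le_iff₀ (Real.exp_pos _), ← Real.exp_add, ← Real.exp_add]
      refine hX.trans ?_
      rw [hLe 2]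
      apply Real.exp_le_exp.2
      push_cast
      linarith
    have h3 : x ^ (-η) * T ^ 2 ≤ Real.exp (-m) * Real.exp (-(4 * l)) := by
      rw [hxX, ← Real.exp_mul, hT, ← Real.exp_nat_mul, ← Real.exp_add, ← Real.exp_add]
      apply Real.exp_le_exp.2
      push_cast
      linarith
    linarith
  have h0 : (0 : ℝ) ≤ 1 + (N : ℝ) := by positivity
  have h1 : (1 + (N : ℝ)) ^ 2 ≤ (C2 * L) ^ 2 := pow_le_pow_left₀ h0 hN 2
  have h2 : 0 ≤ X / √T + x ^ (-η) * T ^ 2 := by positivity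
  have h3 : Real.exp (-(4 * l)) * (L ^ 2 * L ^ 2) = 1 := by
    rw [hLe 2, ← Real.exp_add, ← Real.exp_add, Real.exp_eq_one_iff]
    push_cast
    ring
  calc Cp * (1 + (N : ℝ)) ^ 2 * (x / η) * (X / √T + x ^ (-η) * T ^ 2)
      ≤ Cp * (C2 * L) ^ 2 * (x * L ^ 2) * (2 * Real.exp (-m) * Real.exp (-(4 * l))) := by
        refine mul_le_mul (mul_le_mul (mul_le_mul_of_nonneg_left h1 (by linarith)) e1
          (by positivity) (by positivity)) e2 h2 (by positivity)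
    _ = 2 * Cp * C2 ^ 2 * x * Real.exp (-m) * (Real.exp (-(4 * l)) * (L ^ 2 * L ^ 2)) := by ring
    _ = _ := by rw [h3, mul_one]

/-- The end. -/
private theorem tpar_end {P R : ℂ} {x m Cp C2 Cz cz X V C0 : ℝ} (hx : 0 < x) (hCp : 1 ≤ Cp)
    (hCz : 1 ≤ Cz) (hXV : 0 ≤ X / V) (hm : m = 1 / 100 * (X / V))
    (q6 : 2 * Cp * C2 ^ 2 + 2 * Cz ≤ C0)
    (h1 : ‖P + R‖ ≤ 2 * Cp * C2 ^ 2 * x * Real.exp (-m))
    (h2 : ‖R‖ ≤ 2 * x * (Cz * Real.exp (-(cz * (X / V))))) :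
    ‖P‖ ≤ C0 * x * Real.exp (-(min (1 / 100) cz * (X / V))) := by
  have g1 : Real.exp (-m) ≤ Real.exp (-(min (1 / 100) cz * (X / V))) := by
    rw [hm]
    apply Real.exp_le_exp.2
    have := mul_le_mul_of_nonneg_right (min_le_left (1 / 100 : ℝ) cz) hXV
    linarith
  have g2 : Real.exp (-(cz * (X / V))) ≤ Real.exp (-(min (1 / 100) cz * (X / V))) := by
    apply Real.exp_le_exp.2
    have := mul_le_mul_of_nonneg_right (min_le_right (1 / 100 : ℝ) cz) hXV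
    linarith
  obtain ⟨W, hW⟩ : ∃ W : ℝ, W = Real.exp (-(min (1 / 100) cz * (X / V))) := ⟨_, rfl⟩
  rw [← hW] at g1 g2 ⊢
  have hW0 : 0 < W := by rw [hW]; exact Real.exp_pos _
  have k1 : ‖P‖ ≤ ‖P + R‖ + ‖R‖ := by
    have h3 := norm_sub_le (P + R) R
    rwa [add_sub_cancel_right] at h3
  have k3 : 2 * Cp * C2 ^ 2 * x * Real.exp (-m) ≤ 2 * Cp * C2 ^ 2 * x * W :=
    mul_le_mul_of_nonneg_left g1 (by positivity)
  have k4 : 2 * x * (Cz * Real.exp (-(cz * (X / V)))) ≤ 2 * x * (Cz * W) :=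
    mul_le_mul_of_nonneg_left (mul_le_mul_of_nonneg_left g2 (by linarith)) (by linarith)
  have k5 : (2 * Cp * C2 ^ 2 + 2 * Cz) * (x * W) ≤ C0 * (x * W) :=
    mul_le_mul_of_nonneg_right q6 (by positivity)
  calc ‖P‖ ≤ 2 * Cp * C2 ^ 2 * x * W + 2 * x * (Cz * W) := by linarith
    _ = (2 * Cp * C2 ^ 2 + 2 * Cz) * (x * W) := by ring
    _ ≤ _ := k5
    _ = C0 * x * W := by ring

/-- The height. -/
private theorem tpar_T {t L l m T : ℝ} (hL80 : 80 ≤ L) (hl1 : 1 ≤ l) (hlL : 80 * l ≤ L)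
    (hm0 : 0 < m) (hmL : 100 * m ≤ L) (ht : t = Real.exp L) (hL : L = Real.exp l)
    (hT : T = Real.exp (2 * m + 20 * l)) :
    2 ≤ T ∧ T + 3 ≤ t / 2 ∧ Real.log (2 * t + 4) ≤ T := by
  have hE0 : T ≤ Real.exp (L / 2) := by
    rw [hT]
    exact Real.exp_le_exp.2 (by linarith)
  have hE1 : Real.exp (L / 2) * Real.exp (L / 2) = t := by
    rw [← Real.exp_add, add_halves, ht]
  have hE2 : 40 ≤ Real.exp (L / 2) := by
    have := Real.add_one_le_exp (L / 2)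
    linarith
  obtain ⟨E, hE⟩ : ∃ E : ℝ, E = Real.exp (L / 2) := ⟨_, rfl⟩
  rw [← hE] at hE0 hE1 hE2
  have hT2L : 2 * L ≤ T := by
    have h1 : L * L = Real.exp (2 * l) := by
      rw [two_mul, Real.exp_add, ← hL]
    have h2 : Real.exp (2 * l) ≤ T := by
      rw [hT]
      exact Real.exp_le_exp.2 (by linarith)
    have h3 : 2 * L ≤ L * L := mul_le_mul_of_nonneg_right (by linarith) (by linarith)
    linarith
  have hEE : 40 * E ≤ E * E := mul_le_mul_of_nonneg_right hE2 (by linarith)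
  refine ⟨by linarith, by linarith, ?_⟩
  refine le_trans ?_ hT2L
  have ht4 : 1600 ≤ t := by
    have := mul_le_mul hE2 hE2 (by norm_num) (by linarith)
    linarith
  have hlt : Real.log t = L := by rw [ht, Real.log_exp]
  rw [← hlt, two_mul (Real.log t), ← Real.log_mul (by linarith) (by linarith)]
  refine Real.log_le_log (by linarith) ?_
  have := mul_le_mul_of_nonneg_right ht4 (by linarith : (0 : ℝ) ≤ t)
  linarith

/-- The number `2 η V`. -/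
private theorem tpar_eta {X V l m η C0 : ℝ} (hV0 : 0 < V) (hX0 : 0 < X) (hC00 : 0 < C0) (hl0 : 0 < l)
    (hX1 : C0 * V ≤ X) (hη : η = (6 * m + 60 * l) / X) (hm : m = X / (100 * V)) :
    2 * η * V ≤ 1 + 120 / C0 * l := by
  have h1 : 2 * η * V = 12 / 100 + 120 * l * (V / X) := by
    rw [hη, hm]
    field_simp
    ring
  have h2 : V / X ≤ 1 / C0 := by
    rw [div_le_div_iff₀ hX0 hC00]
    linarith
  have h3 : 120 * l * (V / X) ≤ 120 * l * (1 / C0) := mul_le_mul_of_nonneg_left h2 (by linarith)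
  have h4 : 120 * l * (1 / C0) = 120 / C0 * l := by ring
  rw [h1]
  linarith

theorem tpar : ∃ C0 c : ℝ, 1 ≤ C0 ∧ 0 < c ∧ ∀ t x : ℝ, C0 ≤ t → 1 ≤ x → C0 * VK t ≤ Real.log x →
    Real.log x ≤ Real.log t ^ (3 / 2 : ℝ) →
    ‖∑ n ∈ Finset.Icc 1 ⌊x⌋₊, ((ArithmeticFunction.vonMangoldt n : ℝ) : ℂ) *
      (n : ℂ) ^ (-(t * I))‖ ≤ C0 * x * Real.exp (-(c * (Real.log x / VK t))) := by
  obtain ⟨Cp, hCp, hpsa⟩ := psaT
  obtain ⟨A, B, hA, hB, hmain⟩ := mainS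
  obtain ⟨Cz, cz, hCz, hcz, hsum⟩ := sumZ
  obtain ⟨t0, ht03, ht0⟩ := tpar_ev
  obtain ⟨C2, hC2⟩ : ∃ C2 : ℝ, C2 = 1 + A * Real.exp (8 * B) := ⟨_, rfl⟩
  have hC2' : 0 < C2 := by rw [hC2]; positivity
  obtain ⟨C0, hC0⟩ : ∃ C0 : ℝ, C0 = Cp + t0 + 960 + 960 * B + 2 * Cz + 2 * Cp * C2 ^ 2 := ⟨_, rfl⟩
  have hCC : 0 < Cp * C2 ^ 2 := by positivity
  have q1 : Cp ≤ C0 := by linarith
  have q2 : t0 ≤ C0 := by linarith
  have q3 : 960 ≤ C0 := by linarith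
  have q4 : 960 * B ≤ C0 := by linarith
  have q5 : 2 * Cz ≤ C0 := by linarith
  have q6 : 2 * Cp * C2 ^ 2 + 2 * Cz ≤ C0 := by linarith
  clear hC0 hCC
  refine ⟨C0, min (1 / 100) cz, by linarith, lt_min (by norm_num) hcz, fun t x ht hx hX1 hX2 => ?_⟩
  obtain ⟨hL80, hl1, hlL⟩ := ht0 t (q2.trans ht)
  clear ht0 q2 ht03
  obtain ⟨L, hL⟩ : ∃ L : ℝ, Real.log t = L := ⟨_, rfl⟩
  obtain ⟨l, hl⟩ : ∃ l : ℝ, Real.log L = l := ⟨_, rfl⟩
  obtain ⟨V, hVd⟩ : ∃ V : ℝ, VK t = V := ⟨_, rfl⟩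
  obtain ⟨X, hX⟩ : ∃ X : ℝ, Real.log x = X := ⟨_, rfl⟩
  have hV : V = L ^ (2 / 3 : ℝ) * l ^ (1 / 3 : ℝ) := by
    rw [← hVd, ← hl, ← hL]
    rfl
  rw [hVd, hX]
  rw [hVd, hX] at hX1
  rw [hX, hL] at hX2
  rw [hL] at hL80 hl1 hlL
  rw [hl] at hl1 hlL
  have ht4 : 4 ≤ t := le_trans (by linarith) ht
  have hL0 : 0 < L := by linarith
  have hl0 : 0 < l := by linarith
  have htL : t = Real.exp L := by rw [← hL, Real.exp_log (by linarith)]
  have hLl : L = Real.exp l := by rw [← hl, Real.exp_log hL0]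
  obtain ⟨hV1, hlV, hV3, hVL, hL2⟩ := tpar_V hl1 (by linarith) hV
  have hV0 : 0 < V := by linarith
  have hx0 : 0 < x := by linarith
  have hxX : x = Real.exp X := by rw [← hX, Real.exp_log hx0]
  have hC0V : C0 ≤ C0 * V := le_mul_of_one_le_right (by linarith) hV1
  have hXC : C0 ≤ X := hC0V.trans hX1
  have hX0 : 0 < X := by linarith
  have hXV : 960 * V ≤ X := (mul_le_mul_of_nonneg_right q3 hV0.le).trans hX1
  have hXL : X ≤ V * L := hX2.trans hVL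
  have hXL2 : X ≤ L ^ 2 := hX2.trans hL2
  obtain ⟨m, hm⟩ : ∃ m : ℝ, m = X / (100 * V) := ⟨_, rfl⟩
  have hmV : V * (100 * m) = X := by rw [hm]; field_simp
  have hm0 : 0 < m := by rw [hm]; positivity
  have hmX : 100 * m ≤ X := by
    rw [← hmV]
    exact le_mul_of_one_le_left (by linarith) hV1
  have hmL : 100 * m ≤ L := by
    rw [← hmV] at hXL
    exact le_of_mul_le_mul_left hXL hV0
  obtain ⟨T, hT⟩ : ∃ T : ℝ, T = Real.exp (2 * m + 20 * l) := ⟨_, rfl⟩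
  obtain ⟨η, hη⟩ : ∃ η : ℝ, η = (6 * m + 60 * l) / X := ⟨_, rfl⟩
  have hηX : η * X = 6 * m + 60 * l := by rw [hη]; field_simp
  have hη0 : 0 < η := by rw [hη]; positivity
  have hη8 : η ≤ 1 / 8 := by
    have h1 : η * X ≤ 1 / 8 * X := by
      rw [hηX]
      linarith
    exact le_of_mul_le_mul_right h1 hX0
  have hC00 : 0 < C0 := by linarith
  have hδ0 : 0 ≤ 120 / C0 := by positivity
  have hδ1 : 120 / C0 ≤ 1 := by
    rw [div_le_one hC00]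
    linarith
  have hsV := tpar_eta hV0 hX0 hC00 hl0 hX1 hη hm
  obtain ⟨hs1, hs2⟩ := tpar_s (s := 2 * η) hl1 hL0 hV1 hV3 (by linarith) hδ0 hδ1 hsV
  have hDB : 8 * B * (1 + 120 / C0 * l) ≤ 8 * B + l := by
    have h1 : 8 * B * (120 / C0) ≤ 1 := by
      rw [mul_div_assoc', div_le_one hC00]
      linarith
    have h2 := mul_le_mul_of_nonneg_right h1 hl0.le
    linarith
  obtain ⟨hT2, hT3, hlog⟩ := tpar_T hL80 hl1 hlL hm0 hmL htL hLl hT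
  obtain ⟨N, hN⟩ : ∃ N : ℕ, N = ⌊A * Real.exp (8 * B) * L⌋₊ := ⟨_, rfl⟩
  have hcount : ∀ S : Finset ℂ, (∀ u ∈ S, zetaPole u = 0 ∧ 1 - 2 * η ≤ u.re ∧
      |u.im - t| ≤ T + 2) → mul S ≤ N := by
    intro S hS
    rw [hN]
    exact tpar_count (s := 2 * η) (D := 1 + 120 / C0 * l) (E := T) hA hB ht4 hL hl hVd hL0
      (by linarith) (by linarith) hs2 hsV hDB (by linarith) hmain S hS
  have c1 : Cp ≤ x := by
    have := Real.add_one_le_exp X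
    rw [hxX]
    linarith
  have c2 : T ≤ x ^ (1 / 4 : ℝ) := by
    rw [hxX, ← Real.exp_mul, hT]
    exact Real.exp_le_exp.2 (by linarith)
  obtain ⟨Z, hZ, hZN, herr⟩ := hpsa t x T η N c1 hT2 c2 (by linarith) hlog hη0 hη8 hcount
  have hne : ∀ u ∈ Z, u ≠ 1 := by
    rintro u hu rfl
    have h1 := (hZ _ hu).1
    unfold zetaPole at h1
    rw [Function.update_self] at h1
    exact one_ne_zero h1
  have d1 : Cz * VK t ≤ Real.log x := by
    rw [hVd, hX]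
    exact (mul_le_mul_of_nonneg_right (by linarith) hV0.le).trans hX1
  have d2 : Cz * (√(2 * η) * Real.log t) ≤ Real.log x := by
    rw [hL, hX]
    have h1 : Cz * (√(2 * η) * L) ≤ Cz * (2 * V) := mul_le_mul_of_nonneg_left hs1 (by linarith)
    have h2 : 2 * Cz * V ≤ C0 * V := mul_le_mul_of_nonneg_right q5 hV0.le
    linarith
  have hsum' := hsum t x η Z (by linarith) hx d1 hη0 (by linarith) d2
    (fun ρ hρ => ⟨(Pool.Agent.H76.CR.zetaPole_eq_zero_iff (hne ρ hρ)).1 (hZ ρ hρ).1,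
      (hZ ρ hρ).2.1, (hZ ρ hρ).2.2.trans (by linarith)⟩)
  rw [hVd, hX] at hsum'
  have hzero : ‖∑ ρ ∈ Z, (zord ρ : ℂ) * ((x : ℂ) ^ (ρ - t * I) / (ρ - t * I))‖ ≤
      2 * x * (Cz * Real.exp (-(cz * (X / V)))) := by
    refine (norm_sum_le _ _).trans ?_
    refine le_trans ?_ (mul_le_mul_of_nonneg_left hsum' (by linarith : (0 : ℝ) ≤ 2 * x))
    rw [Finset.mul_sum]
    refine Finset.sum_le_sum fun ρ hρ => ?_
    exact tpar_zero hx0 (hne ρ hρ) (le_trans (by linarith) (hZ ρ hρ).2.1)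
  have hNL : 1 + (N : ℝ) ≤ C2 * L := by
    have h1 : (N : ℝ) ≤ A * Real.exp (8 * B) * L := by
      rw [hN]
      exact Nat.floor_le (by positivity)
    rw [hC2]
    linarith
  rw [hX] at herr
  have hfin := tpar_err (Cp := Cp) (N := N) hCp hC2' hl1 hm0 hη0 hx0 hX0 hLl hNL hXL2 hxX hηX hT
  refine tpar_end (P := ∑ n ∈ Finset.Icc 1 ⌊x⌋₊, ((ArithmeticFunction.vonMangoldt n : ℝ) : ℂ) *
      (n : ℂ) ^ (-(t * I))) hx0 hCp hCz (by positivity) ?_ q6 (herr.trans hfin) hzero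
  rw [hm]
  field_simp

end Pool.Agent.H48.LDT
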