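import Mathlib
import Pool.Agent.H48.LDT.TPar

/-!
# TFin: the bound for `∑ Λ(n) n^(-it)`, all `x` with `log x ≤ (log t)^(3/2)`

PROOF.  `tpar` in its range.  Otherwise trivially `‖∑‖ ≤ ψ(x) ≤ C x` (Mathlib, `Chebyshev` file: `psi` is `O(x)`; or
`Chebyshev.psi_le_const_mul_self`), while `exp(-c log x/VK t)` is bounded below: if `log x ≤ C0 VK t` by `exp(-c C0)`; if
`t ≤ C0` then `log x ≤ (log C0)^(3/2)` and `VK t ≥ VK 3 > 0` (`VK_mono`, `VK_pos`).  About 60 lines.
-/

set_option autoImplicit false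

open Complex

namespace Pool.Agent.H48.LDT

open Pool.Agent.H48.LD Pool.Agent.H48.LDP

private lemma triv {t x : ℝ} (hx : 1 ≤ x) :
    ‖∑ n ∈ Finset.Icc 1 ⌊x⌋₊, ((ArithmeticFunction.vonMangoldt n : ℝ) : ℂ) *
      (n : ℂ) ^ (-(t * I))‖ ≤ (Real.log 4 + 4) * x := by
  have h1 : Chebyshev.psi x ≤ (Real.log 4 + 4) * x := Chebyshev.psi_le_const_mul_self (by linarith)
  refine le_trans ?_ h1
  rw [Chebyshev.psi_eq_sum_Icc]
  refine (norm_sum_le _ _).trans ?_
  refine (Finset.sum_le_sum (g := fun n => ArithmeticFunction.vonMangoldt n) fun n hn => ?_).trans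
    (Finset.sum_le_sum_of_subset_of_nonneg ?_ fun _ _ _ => ArithmeticFunction.vonMangoldt_nonneg)
  · have hn1 : 0 < n := (Finset.mem_Icc.1 hn).1
    rw [norm_mul, Complex.norm_real, Real.norm_of_nonneg ArithmeticFunction.vonMangoldt_nonneg,
      Complex.norm_natCast_cpow_of_pos hn1]
    simp
  · intro n hn
    rw [Finset.mem_Icc] at hn ⊢
    exact ⟨Nat.zero_le _, hn.2⟩

theorem tfin : ∃ C c : ℝ, 0 < C ∧ 0 < c ∧ ∀ t x : ℝ, 3 ≤ t → 1 ≤ x →
    Real.log x ≤ Real.log t ^ (3 / 2 : ℝ) →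
    ‖∑ n ∈ Finset.Icc 1 ⌊x⌋₊, ((ArithmeticFunction.vonMangoldt n : ℝ) : ℂ) *
      (n : ℂ) ^ (-(t * I))‖ ≤ C * x * Real.exp (-(c * (Real.log x / VK t))) := by
  obtain ⟨C0, c, hC0, hc, h⟩ := tpar
  have hl4 : 0 < Real.log 4 := Real.log_pos (by norm_num)
  have h3 := VK_pos (le_refl (3 : ℝ))
  set m : ℝ := max C0 (Real.log (max C0 3) ^ (3 / 2 : ℝ) / VK 3) with hm
  have hm0 : 0 < m := lt_of_lt_of_le (by linarith) (le_max_left _ _)
  set A : ℝ := (Real.log 4 + 4) * Real.exp (c * m) with hA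
  have hA0 : 0 < A := by positivity
  refine ⟨C0 + A, c, by linarith, hc, fun t x ht hx hlog => ?_⟩
  have hV := VK_pos ht
  have hlx : 0 ≤ Real.log x := Real.log_nonneg hx
  have hE : 0 < Real.exp (-(c * (Real.log x / VK t))) := Real.exp_pos _
  -- the trivial bound suffices when `log x ≤ m VK t`
  have key : Real.log x ≤ m * VK t → ‖∑ n ∈ Finset.Icc 1 ⌊x⌋₊,
      ((ArithmeticFunction.vonMangoldt n : ℝ) : ℂ) * (n : ℂ) ^ (-(t * I))‖ ≤
      (C0 + A) * x * Real.exp (-(c * (Real.log x / VK t))) := by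
    intro hle
    refine (triv hx).trans ?_
    have h1 : Real.log x / VK t ≤ m := by rwa [div_le_iff₀ hV]
    have h2 : 1 ≤ Real.exp (c * m) * Real.exp (-(c * (Real.log x / VK t))) := by
      rw [← Real.exp_add]
      apply Real.one_le_exp
      have := mul_le_mul_of_nonneg_left h1 hc.le
      linarith
    have h4 : 0 ≤ (Real.log 4 + 4) * x := by positivity
    calc (Real.log 4 + 4) * x ≤ (Real.log 4 + 4) * x *
          (Real.exp (c * m) * Real.exp (-(c * (Real.log x / VK t)))) := le_mul_of_one_le_right h4 h2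
      _ = A * x * Real.exp (-(c * (Real.log x / VK t))) := by rw [hA]; ring
      _ ≤ (C0 + A) * x * Real.exp (-(c * (Real.log x / VK t))) := by
          have : 0 ≤ C0 * x * Real.exp (-(c * (Real.log x / VK t))) := by positivity
          linarith
  rcases le_or_gt C0 t with h0 | h0
  · rcases le_or_gt (C0 * VK t) (Real.log x) with h1 | h1
    · refine (h t x h0 hx h1 hlog).trans ?_
      have : 0 ≤ A * x * Real.exp (-(c * (Real.log x / VK t))) := by positivity
      linarith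
    · apply key
      have : C0 * VK t ≤ m * VK t := mul_le_mul_of_nonneg_right (le_max_left _ _) hV.le
      linarith
  · apply key
    have h1 : Real.log t ≤ Real.log (max C0 3) :=
      Real.log_le_log (by linarith) (h0.le.trans (le_max_left _ _))
    have h2 : 0 ≤ Real.log t := Real.log_nonneg (by linarith)
    have h4 : Real.log t ^ (3 / 2 : ℝ) ≤ Real.log (max C0 3) ^ (3 / 2 : ℝ) :=
      Real.rpow_le_rpow h2 h1 (by norm_num)
    have h5 : VK 3 ≤ VK t := VK_mono le_rfl ht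
    have h6 : Real.log (max C0 3) ^ (3 / 2 : ℝ) ≤ m * VK 3 := by
      rw [← div_le_iff₀ h3]
      exact le_max_right _ _
    have h7 : m * VK 3 ≤ m * VK t := mul_le_mul_of_nonneg_left h5 hm0.le
    linarith

end Pool.Agent.H48.LDT
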