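import Mathlib
import Pool.Agent.H48.LDP.Fin3
import Pool.Agent.H48.LDT.TFin

/-!
# Fin4: the complete statement

`NZ` (`H48/LD/Defs.lean`), `VK` (`H48/LDP/Fin2.lean`).
-/

set_option autoImplicit false

open Complex

namespace Pool.Agent.H48.LDT

open Pool.Agent.H48.LD Pool.Agent.H48.LDP

theorem resultT :
    (∃ A B : ℝ, 0 < A ∧ 0 < B ∧
      (∀ σ T : ℝ, 1 / 2 ≤ σ → σ ≤ 1 → 3 ≤ T →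
        {u : ℂ | riemannZeta u = 0 ∧ σ ≤ u.re ∧ 0 < u.im ∧ u.im ≤ T}.Finite ∧
        (NZ σ T : ℝ) ≤ A * Real.exp (B * ((1 - σ) ^ (3 / 2 : ℝ) * Real.log T + (1 - σ) * VK T))) ∧
      (∀ (lam T : ℝ) (S : Finset ℂ), 0 < lam → 3 ≤ T →
        ((∀ ρ ∈ S, riemannZeta ρ = 0 ∧ 1 / 2 ≤ ρ.re ∧ 0 < ρ.im ∧ ρ.im ≤ T ∧
            1 - lam / VK T < ρ.re) ∨
          (∀ ρ ∈ S, riemannZeta ρ = 0 ∧ 1 / 2 ≤ ρ.re ∧ T ≤ ρ.im ∧ ρ.im ≤ T ^ 2 ∧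
            1 - lam / VK ρ.im < ρ.re)) →
        ∑ ρ ∈ S, (analyticOrderNatAt riemannZeta ρ : ℝ) ≤
          A * Real.exp (B * (lam + lam ^ (3 / 2 : ℝ) / √(Real.log (Real.log T)))))) ∧
    (∀ lam : ℝ, 0 < lam → ∃ K C : ℝ, 0 < C ∧ ∀ x : ℝ, 3 ≤ x →
      ∃ Z : Finset ℂ, (∀ ρ ∈ Z, riemannZeta ρ = 0 ∧ 1 / 2 < ρ.re) ∧
        (∑ ρ ∈ Z, (analyticOrderNatAt riemannZeta ρ : ℝ)) ≤ K ∧
        ‖((∑ n ∈ Finset.Icc 1 ⌊x⌋₊, ArithmeticFunction.vonMangoldt n : ℝ) : ℂ) - x +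
            ∑ ρ ∈ Z, (analyticOrderNatAt riemannZeta ρ : ℂ) * ((x : ℂ) ^ ρ / ρ)‖ ≤
          C * x * Real.exp (-(lam * (Real.log x ^ (3 / 5 : ℝ) /
            Real.log (Real.log x) ^ (1 / 5 : ℝ))))) ∧
    (∃ C c : ℝ, 0 < C ∧ 0 < c ∧ ∀ t x : ℝ, 3 ≤ t → 1 ≤ x →
      Real.log x ≤ Real.log t ^ (3 / 2 : ℝ) →
      ‖∑ n ∈ Finset.Icc 1 ⌊x⌋₊, ((ArithmeticFunction.vonMangoldt n : ℝ) : ℂ) *
        (n : ℂ) ^ (-(t * I))‖ ≤ C * x * Real.exp (-(c * (Real.log x / VK t)))) :=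
  ⟨resultLD.1, resultLD.2, tfin⟩

end Pool.Agent.H48.LDT
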