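import Mathlib
import Pool.Agent.H6.ZetaGrowth
import Pool.Agent.H48.LDT.Fin4

/-!
# Rem: the remainder of the prime number theorem is at most a constant times the largest term
-/

set_option autoImplicit false

open Complex MeasureTheory Set

namespace Pool.Agent.H48.LDT

open Pool.Agent.H6 Pool.Agent.H48.LD Pool.Agent.H48.LDP

/-- The zeta function has no zeros in the real interval `(0, 1)`. -/
theorem im_ne_zero_of_zero {ρ : ℂ} (hρ : riemannZeta ρ = 0) (h0 : 0 < ρ.re) (h1 : ρ.re < 1) :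
    ρ.im ≠ 0 := by
  intro him
  set σ := ρ.re with hσ
  have hρσ : ρ = (σ : ℂ) := by
    apply Complex.ext
    · simp [hσ]
    · simp [him]
  have hne : ρ ≠ 1 := by rintro rfl; simp [hσ] at h1
  have h2 := zetaPole_eq (s := ρ) h0
  rw [zetaPole_of_ne hne, hρ, mul_zero] at h2
  have h3 : frMellin ρ = ((∫ t in Ioi (1:ℝ), t ^ (-σ - 1) * Int.fract t : ℝ) : ℂ) := by
    rw [frMellin_eq, hρσ]
    rw [← integral_complex_ofReal]
    refine setIntegral_congr_fun measurableSet_Ioi fun t ht => ?_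
    have ht1 : (1:ℝ) < t := ht
    have ht0 : (0:ℝ) < t := by linarith
    have e : fr t = ((Int.fract t : ℝ) : ℂ) := by
      unfold fr
      rw [if_neg (by linarith)]
    rw [e, smul_eq_mul]
    push_cast
    rw [Complex.ofReal_cpow ht0.le]
    push_cast
    rfl
  have h4 : 0 ≤ ∫ t in Ioi (1:ℝ), t ^ (-σ - 1) * Int.fract t := by
    refine setIntegral_nonneg measurableSet_Ioi fun t ht => ?_
    have ht0 : (0:ℝ) < t := lt_trans zero_lt_one ht
    exact mul_nonneg (Real.rpow_nonneg ht0.le _) (Int.fract_nonneg t)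
  rw [h3, hρσ] at h2
  have h5 : (0:ℝ) = σ - σ * (σ - 1) * ∫ t in Ioi (1:ℝ), t ^ (-σ - 1) * Int.fract t := by
    exact_mod_cast h2
  have h6 : 0 ≤ σ * (1 - σ) * ∫ t in Ioi (1:ℝ), t ^ (-σ - 1) * Int.fract t := by
    have : 0 ≤ 1 - σ := by linarith
    positivity
  nlinarith

/-- **The remainder of the prime number theorem is at most a constant times the largest term of
the explicit formula**, at every precision `x exp(-K (log x)^(3/5) / (loglog x)^(1/5))`. -/
theorem remainder (K : ℝ) : ∃ C : ℝ, 0 < C ∧ ∀ x D : ℝ, 3 ≤ x →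
    D ≤ K * (Real.log x ^ (3 / 5 : ℝ) / Real.log (Real.log x) ^ (1 / 5 : ℝ)) →
    (∀ ρ : ℂ, riemannZeta ρ = 0 → 1 / 2 < ρ.re → 0 < ρ.im →
      x ^ ρ.re / ρ.im ≤ x * Real.exp (-D)) →
    |∑ n ∈ Finset.Icc 1 ⌊x⌋₊, ArithmeticFunction.vonMangoldt n - x| ≤
      C * x * Real.exp (-D) := by
  obtain ⟨N, C, hC, hmain⟩ := resultT.2.1 (max K 1) (lt_max_of_lt_right one_pos)
  refine ⟨C + max N 0, by positivity, fun x D hx hD hz => ?_⟩
  obtain ⟨Z, hZ, hN, hb⟩ := hmain x hx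
  obtain ⟨g1, g2⟩ := loglog3 hx
  have hx0 : 0 < x := by linarith
  obtain ⟨W, hW⟩ : ∃ W : ℝ, W = Real.log x ^ (3 / 5 : ℝ) / Real.log (Real.log x) ^ (1 / 5 : ℝ) :=
    ⟨_, rfl⟩
  rw [← hW] at hD hb
  have hW0 : 0 < W := by
    rw [hW]
    have : 0 < Real.log x := by linarith
    have : 0 < Real.log (Real.log x) := by linarith
    positivity
  have hterm : ∀ ρ ∈ Z, ‖(x : ℂ) ^ ρ / ρ‖ ≤ x * Real.exp (-D) := by
    intro ρ hρ
    obtain ⟨h0, h1⟩ := hZ ρ hρ
    have hlt : ρ.re < 1 := by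
      by_contra h
      exact riemannZeta_ne_zero_of_one_le_re (not_lt.1 h) h0
    have him := im_ne_zero_of_zero h0 (by linarith) hlt
    rw [norm_div, Complex.norm_cpow_eq_rpow_re_of_pos hx0]
    have habs : 0 < |ρ.im| := abs_pos.2 him
    have hge : x ^ ρ.re / ‖ρ‖ ≤ x ^ ρ.re / |ρ.im| :=
      div_le_div_of_nonneg_left (Real.rpow_nonneg hx0.le _) habs (Complex.abs_im_le_norm ρ)
    refine hge.trans ?_
    rcases lt_or_gt_of_ne him with h | h
    · have hc : riemannZeta ((starRingEnd ℂ) ρ) = 0 := by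
        rw [riemannZeta_conj, h0, map_zero]
      have := hz _ hc (by simpa using h1) (by simpa using h)
      simpa [abs_of_neg h] using this
    · rw [abs_of_pos h]
      exact hz ρ h0 h1 h
  have hsum : ‖∑ ρ ∈ Z, (analyticOrderNatAt riemannZeta ρ : ℂ) * ((x : ℂ) ^ ρ / ρ)‖ ≤
      max N 0 * (x * Real.exp (-D)) := by
    refine (norm_sum_le _ _).trans ?_
    calc ∑ ρ ∈ Z, ‖(analyticOrderNatAt riemannZeta ρ : ℂ) * ((x : ℂ) ^ ρ / ρ)‖
        ≤ ∑ ρ ∈ Z, (analyticOrderNatAt riemannZeta ρ : ℝ) * (x * Real.exp (-D)) := by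
          refine Finset.sum_le_sum fun ρ hρ => ?_
          rw [norm_mul, Complex.norm_natCast]
          exact mul_le_mul_of_nonneg_left (hterm ρ hρ) (Nat.cast_nonneg _)
      _ = (∑ ρ ∈ Z, (analyticOrderNatAt riemannZeta ρ : ℝ)) * (x * Real.exp (-D)) := by
          rw [Finset.sum_mul]
      _ ≤ max N 0 * (x * Real.exp (-D)) :=
          mul_le_mul_of_nonneg_right (hN.trans (le_max_left _ _)) (by positivity)
  have hexp : Real.exp (-(max K 1 * W)) ≤ Real.exp (-D) := by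
    apply Real.exp_le_exp.2
    have : K * W ≤ max K 1 * W := mul_le_mul_of_nonneg_right (le_max_left _ _) hW0.le
    linarith
  obtain ⟨S, hS⟩ : ∃ S : ℝ, S = ∑ n ∈ Finset.Icc 1 ⌊x⌋₊, ArithmeticFunction.vonMangoldt n :=
    ⟨_, rfl⟩
  rw [← hS] at hb ⊢
  have h1 : |S - x| = ‖((S : ℝ) : ℂ) - x‖ := by
    rw [← Complex.ofReal_sub, Complex.norm_real, Real.norm_eq_abs]
  rw [h1]
  calc ‖((S : ℝ) : ℂ) - x‖
      = ‖(((S : ℝ) : ℂ) - x + ∑ ρ ∈ Z, (analyticOrderNatAt riemannZeta ρ : ℂ) *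
          ((x : ℂ) ^ ρ / ρ)) - ∑ ρ ∈ Z, (analyticOrderNatAt riemannZeta ρ : ℂ) *
          ((x : ℂ) ^ ρ / ρ)‖ := by congr 1; ring
    _ ≤ C * x * Real.exp (-(max K 1 * W)) + max N 0 * (x * Real.exp (-D)) :=
        (norm_sub_le _ _).trans (add_le_add hb hsum)
    _ ≤ C * x * Real.exp (-D) + max N 0 * (x * Real.exp (-D)) :=
        add_le_add (mul_le_mul_of_nonneg_left hexp (by positivity)) le_rfl
    _ = (C + max N 0) * x * Real.exp (-D) := by ring

end Pool.Agent.H48.LDT
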